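import Pool.Agent.Helper55_AEU.Ver

/-!
C1: a critical body contains a vertex.
-/

namespace Pool.Agent.AEU.H55

open MeasureTheory Complex Filter Topology Pool.Agent.H62T
open Pool.Agent.H16F (Sublin)

theorem mem_touch {P : Finset HP} {h : ℂ → ℝ} {s : HP} :
    s ∈ touch P h ↔ s ∈ P ∧ h s.1 = s.2 := by
  rw [touch, Finset.mem_filter]

theorem c1 (hf4 : F4Statement) (hlc : LcStatement) (hlm : LmStatement) (huni : UniStatement)
    (hsup : SupStatement) (hmix : MixStatement) (hhul : HulStatement) (hlam : LamStatement) :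
    C1Statement := by
  intro P Q hP hQ L h hcr
  by_contra hno
  push Not at hno
  have hsub := hcr.unm.1.sub
  have hfit := hcr.unm.1.fits
  obtain ⟨-, -, -, -, -, v6, v7, -, -⟩ := ver P hP.pg hP.g1
  obtain ⟨-, -, mixh⟩ := hmix P
  set F := touch P h with hF
  have hFP : F ⊆ P := Finset.filter_subset _ _
  have hcard : 4 ≤ F.card := by
    rcases hcr.unm.1.sp with ⟨v, hv, hv'⟩ | h4
    · exact absurd hv' (hno v hv)
    · exact h4
  -- contact points
  have hcont : ∀ s : HP, ∃ x, In x h ∧ ip s.1 x = h s.1 := fun s => (hsup h hsub).2.2.2 s.1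
  choose x hxin hxip using hcont
  have hxs : ∀ s ∈ F, ip s.1 (x s) = s.2 := fun s hs => by
    rw [hxip, (mem_touch.1 hs).2]
  have hxcl : ∀ s, x s ∈ Cl P := fun s => v7 h hfit (x s) (hxin s)
  have hxlt : ∀ s ∈ F, ∀ t ∈ P, t ≠ s → ip t.1 (x s) < t.2 := fun s hs =>
    v6 (x s) (hxcl s) s (hFP hs) (hxs s hs) (fun hv => hno _ hv (hxin s))
  -- a body shorter than `L` through some sides of `F`
  have hle : ∀ y : Fin 4 → HP, lam (hf fun i => x (y i)) ≤ L := by
    intro y
    rw [← hcr.lam]
    exact (hlam.2.1 _ _ (hhul 3 _).1 hsub ((hhul 3 fun i => x (y i)).2.2.2.1 h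
      fun i => hxin _)).1
  rcases Nat.lt_or_ge 4 F.card with h5 | h4
  · -- at least five contacts
    obtain ⟨T, hTF, hT3⟩ := Finset.exists_subset_card_eq (n := 3) (s := F) (by omega)
    obtain ⟨a, b, c, hab, hac, hbc, rfl⟩ := Finset.card_eq_three.1 hT3
    have haF : a ∈ F := hTF (by simp)
    have hbF : b ∈ F := hTF (by simp)
    have hcF : c ∈ F := hTF (by simp)
    have key0 : ∀ d ∈ F, d ∉ ({a, b, c} : Finset HP) →
        ∃ g, Fits Q (mb g h) ∧ mv g a ∈ Q ∧ mv g b ∈ Q ∧ mv g c ∈ Q ∧ mv g d ∈ Q := by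
      intro d hd hdT
      -- a side which is not touched
      obtain ⟨e, heF, he⟩ : ∃ e ∈ F, e ∉ ({a, b, c, d} : Finset HP) := by
        by_contra hcon
        push Not at hcon
        have h1 : F ⊆ ({a, b, c, d} : Finset HP) := fun e he => hcon e he
        have h2 := Finset.card_le_card h1
        have h3 : ({a, b, c, d} : Finset HP).card ≤ 4 := Finset.card_le_four
        omega
      simp only [Finset.mem_insert, Finset.mem_singleton, not_or] at he
      set y : Fin 4 → HP := ![a, b, c, d] with hy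
      set k : ℂ → ℝ := hf fun i => x (y i) with hk
      obtain ⟨k1, k2, k3, k4, k5, k6⟩ := hhul 3 fun i => x (y i)
      obtain ⟨m1, m2⟩ := mixh 3 (fun i => x (y i)) (fun i => hxcl _)
      have hmem : ∀ i : Fin 4, y i ∈ F → y i ∈ touch P k := fun i hi =>
        (m2 (y i)).2 ⟨hFP hi, i, hxs _ hi⟩
      have hne : k ≠ h := by
        intro hkh
        have h1 : k e.1 = e.2 := by rw [hkh]; exact (mem_touch.1 heF).2
        have h2 : k e.1 < e.2 := by
          rw [hk, k6]
          intro i
          have hi : ∀ s ∈ F, s ≠ e → ip e.1 (x s) < e.2 := fun s hs hse =>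
            hxlt s hs e (hFP heF) (Ne.symm hse)
          fin_cases i
          · exact hi a haF (Ne.symm he.1)
          · exact hi b hbF (Ne.symm he.2.1)
          · exact hi c hcF (Ne.symm he.2.2.1)
          · exact hi d hd (Ne.symm he.2.2.2)
        linarith
      have hlt : lam k < L := by
        rw [← hcr.lam]
        by_contra hcon
        push Not at hcon
        exact hne ((hlam.2.1 k h k1 hsub (k4 h fun i => hxin _)).2 hcon)
      have hsubset : ({a, b, c, d} : Finset HP) ⊆ touch P k ∩ touch P h := by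
        intro s hs
        rw [Finset.mem_inter]
        simp only [Finset.mem_insert, Finset.mem_singleton] at hs
        rcases hs with rfl | rfl | rfl | rfl
        · exact ⟨hmem 0 haF, haF⟩
        · exact ⟨hmem 1 hbF, hbF⟩
        · exact ⟨hmem 2 hcF, hcF⟩
        · exact ⟨hmem 3 hd, hd⟩
      have hc4 : ({a, b, c, d} : Finset HP).card = 4 := by
        simp only [Finset.mem_insert, Finset.mem_singleton, not_or] at hdT
        rw [Finset.card_eq_succ]
        refine ⟨d, {a, b, c}, by simp [hdT], ?_, hT3⟩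
        ext s
        simp only [Finset.mem_insert, Finset.mem_singleton]
        tauto
      have hc4' : 4 ≤ (touch P k ∩ touch P h).card := by
        rw [← hc4]
        exact Finset.card_le_card hsubset
      obtain ⟨g, -, hg2, hg3⟩ := hlc P Q hP.pg hQ.pg hP.g1 hQ.g1 L hcr.all k h k1 hsub m1 hfit
        hlt hcr.lam.le (by omega) (Or.inr hc4')
      exact ⟨g, hg2, hg3 a (hsubset (by simp)), hg3 b (hsubset (by simp)),
        hg3 c (hsubset (by simp)), hg3 d (hsubset (by simp))⟩
    have key : ∀ d ∈ F,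
        ∃ g, Fits Q (mb g h) ∧ mv g a ∈ Q ∧ mv g b ∈ Q ∧ mv g c ∈ Q ∧ mv g d ∈ Q := by
      intro d hd
      by_cases hdT : d ∈ ({a, b, c} : Finset HP)
      · obtain ⟨d', hd'F, hd'⟩ : ∃ e ∈ F, e ∉ ({a, b, c} : Finset HP) := by
          by_contra hcon
          push Not at hcon
          have h1 : F ⊆ ({a, b, c} : Finset HP) := fun e he => hcon e he
          have h2 := Finset.card_le_card h1
          omega
        obtain ⟨g, hg, ga, gb, gc, -⟩ := key0 d' hd'F hd'
        refine ⟨g, hg, ga, gb, gc, ?_⟩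
        simp only [Finset.mem_insert, Finset.mem_singleton] at hdT
        rcases hdT with rfl | rfl | rfl <;> assumption
      · exact key0 d hd hdT
    obtain ⟨g, hg, ga, gb, gc, -⟩ := key a haF
    refine hlm P Q hP.pg hQ.pg hP.g1 hQ.g1 L h hcr ⟨g, hg, fun d hd => ?_⟩
    obtain ⟨g', -, ga', gb', gc', gd'⟩ := key d hd
    have hgg : g = g' := by
      refine (huni.2 P Q hP.pg hQ.pg hP.g1 hQ.g1 g g').2 {a, b, c} (hTF.trans hFP) hT3.ge ?_ ?_
      · intro s hs
        simp only [Finset.mem_insert, Finset.mem_singleton] at hs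
        rcases hs with rfl | rfl | rfl <;> assumption
      · intro s hs
        simp only [Finset.mem_insert, Finset.mem_singleton] at hs
        rcases hs with rfl | rfl | rfl <;> assumption
    rw [hgg]
    exact gd'
  · -- exactly four contacts
    have hF4 : F.card = 4 := le_antisymm h4 hcard
    set e := F.equivFinOfCardEq hF4 with he
    set s : Fin 4 → HP := fun i => (e.symm i : HP) with hs
    have hsF : ∀ i, s i ∈ F := fun i => (e.symm i).2
    have hinj : Function.Injective s := fun i j hij => e.symm.injective (Subtype.ext hij)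
    have hsurj : ∀ t ∈ F, ∃ i, s i = t := fun t ht => ⟨e ⟨t, ht⟩, by simp [hs]⟩
    obtain ⟨y, hy, hlty⟩ := hf4 P hP.pg hP.g1 (fun i => x (s i)) s hinj (fun i => hFP (hsF i))
      (fun i => hxs _ (hsF i)) (fun i => hxlt _ (hsF i))
    obtain ⟨k1, -⟩ := hhul 3 y
    obtain ⟨m1, m2⟩ := mixh 3 y (fun i => (hy i).1)
    have hsub4 : F ⊆ touch P (hf y) ∩ touch P h := by
      intro t ht
      rw [Finset.mem_inter]
      obtain ⟨i, rfl⟩ := hsurj t ht
      exact ⟨(m2 _).2 ⟨hFP ht, i, (hy i).2⟩, ht⟩
    have hc4' : 4 ≤ (touch P (hf y) ∩ touch P h).card := by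
      have h1 := Finset.card_le_card hsub4
      omega
    obtain ⟨g, -, hg2, hg3⟩ := hlc P Q hP.pg hQ.pg hP.g1 hQ.g1 L hcr.all (hf y) h k1 hsub m1 hfit
      (lt_of_lt_of_le hlty (hle s)) hcr.lam.le (by omega) (Or.inr hc4')
    exact hlm P Q hP.pg hQ.pg hP.g1 hQ.g1 L h hcr ⟨g, hg2, fun t ht => hg3 t (hsub4 ht)⟩

end Pool.Agent.AEU.H55
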