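import Pool.Agent.Helper55_AEU.Ver

/-!
CGP: if all special bodies are matched, the polygons are congruent.
-/

namespace Pool.Agent.AEU.H55

open MeasureTheory Complex Filter Topology Pool.Agent.H62T
open Pool.Agent.H16F (Sublin)

theorem ip_add_l (z w v : ℂ) : ip (z + w) v = ip z v + ip w v := by
  simp only [ip, add_re, add_im]; ring

theorem ip_mul_l (c : ℝ) (z v : ℂ) : ip ((c : ℂ) * z) v = c * ip z v := by
  simp only [ip, re_ofReal_mul, im_ofReal_mul]; ring

theorem side_mem {P : Finset HP} {s : HP} {x : ℂ} (h : ip s.1 x = s.2)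
    (h' : ∀ t ∈ P, t ≠ s → ip t.1 x < t.2) : x ∈ Cl P := by
  intro t ht
  by_cases hts : t = s
  · rw [hts, h]
  · exact (h' t ht hts).le

/-- the support function of the closed polygon -/
theorem exists_body {P : Finset HP} (hP : Pg P) : ∃ h : ℂ → ℝ, Sublin h ∧ Fits P h ∧
    touch P h = P ∧ ∀ x ∈ Cl P, In x h := by
  have hne : (Cl P).Nonempty := by
    have hc : 0 < P.card := lt_of_lt_of_le (by norm_num) hP.card
    obtain ⟨s, hs⟩ := Finset.card_pos.1 hc
    obtain ⟨x, hx, hx'⟩ := hP.side s hs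
    exact ⟨x, side_mem hx hx'⟩
  have hmax : ∀ w : ℂ, ∃ x ∈ Cl P, ∀ y ∈ Cl P, ip w y ≤ ip w x := by
    intro w
    obtain ⟨x, hx, hx'⟩ := (isCompact_Cl hP).exists_isMaxOn hne (continuous_ip w).continuousOn
    exact ⟨x, hx, fun y hy => hx' hy⟩
  choose m hm hm' using hmax
  refine ⟨fun w => ip w (m w), ⟨?_, ?_⟩, ?_, ?_, ?_⟩
  · intro a b
    show ip (a + b) (m (a + b)) ≤ ip a (m a) + ip b (m b)
    rw [ip_add_l]
    exact add_le_add (hm' a _ (hm _)) (hm' b _ (hm _))
  · intro c a hc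
    show ip ((c : ℂ) * a) (m ((c : ℂ) * a)) = c * ip a (m a)
    apply le_antisymm
    · rw [ip_mul_l]
      exact mul_le_mul_of_nonneg_left (hm' a _ (hm _)) hc
    · have := hm' ((c : ℂ) * a) (m a) (hm a)
      rwa [ip_mul_l] at this
  · intro s hs
    exact hm s.1 s hs
  · ext s
    rw [touch, Finset.mem_filter]
    constructor
    · exact fun h => h.1
    · intro hs
      refine ⟨hs, le_antisymm (hm s.1 s hs) ?_⟩
      obtain ⟨x, hx, hx'⟩ := hP.side s hs
      rw [← hx]
      exact hm' s.1 x (side_mem hx hx')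
  · intro x hx w
    exact hm' w x hx

theorem cgp (hact : ActStatement) : CgpStatement := by
  obtain ⟨a1, a2, -, -, -, a6, a7, -⟩ := hact
  intro P Q hP hQ hcard hall
  obtain ⟨h, hs, hf, ht, hin⟩ := exists_body hP.pg
  obtain ⟨g, hg⟩ := hall h ⟨hs, hf, by rw [ht]; omega, Or.inr (by rw [ht]; exact hcard)⟩
  refine ⟨g, ?_⟩
  have hmem : ∀ s ∈ P, mv g s ∈ Q := fun s hs => hg.mem s (by rw [ht]; exact hs)
  ext t
  rw [Finset.mem_image]
  constructor
  · rintro ⟨s, hs, rfl⟩
    exact hmem s hs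
  · intro htQ
    obtain ⟨y, hy, hy'⟩ := hQ.pg.side t htQ
    have hyQ : y ∈ Cl Q := side_mem hy hy'
    set x : ℂ := g.symm y with hx
    have hgx : g x = y := g.apply_symm_apply y
    have hxP : x ∈ Cl P := by
      intro s hs
      have h1 := hyQ (mv g s) (hmem s hs)
      have h2 := a6 g x s
      rw [hgx] at h2
      linarith
    have h3 : In y (mb g h) := by
      rw [← hgx, a7]
      exact hin x hxP
    have h4 : t ∈ touch Q (mb g h) := by
      rw [touch, Finset.mem_filter]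
      refine ⟨htQ, le_antisymm (hg.fits' t htQ) ?_⟩
      have := h3 t.1
      rwa [hy] at this
    refine ⟨mv g⁻¹ t, hg.mem' t h4, ?_⟩
    rw [← a1, mul_inv_cancel, a2]

end Pool.Agent.AEU.H55
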