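import Pool.Agent.Helper55_AEU.Ver

/-!
SLD: sliding a vertex of a nondegenerate triangle along a side.
-/

namespace Pool.Agent.AEU.H55

open MeasureTheory Complex Filter Topology Pool.Agent.H62T
open Pool.Agent.H16F (Sublin)

theorem norm_sq_eq (z : ℂ) : ‖z‖ ^ 2 = ip z z := by
  rw [← normSq_eq_norm_sq, normSq_apply, ip]

theorem ip_comm (z w : ℂ) : ip z w = ip w z := by simp only [ip]; ring

theorem ip_add_left (z w v : ℂ) : ip (z + w) v = ip z v + ip w v := by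
  simp only [ip, add_re, add_im]; ring

theorem ip_smul_left (c : ℝ) (z v : ℂ) : ip (c • z) v = c * ip z v := by
  simp only [ip, smul_re, smul_im, smul_eq_mul]; ring

/-- second-order estimate for the distance to a moving point -/
theorem norm_move_le {q w : ℂ} (h : q ≠ w) (d : ℂ) (t : ℝ) :
    ‖q - (w + t • d)‖ ≤ ‖q - w‖ - t * (ip (q - w) d / ‖q - w‖) + t ^ 2 * (‖d‖ ^ 2 / (2 * ‖q - w‖)) := by
  have hA : 0 < ‖q - w‖ := norm_pos_iff.2 (sub_ne_zero.2 h)
  set A := ‖q - w‖ with hAdef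
  have e : ‖q - (w + t • d)‖ ^ 2 = A ^ 2 - 2 * t * ip (q - w) d + t ^ 2 * ‖d‖ ^ 2 := by
    rw [hAdef, norm_sq_eq, norm_sq_eq, norm_sq_eq]
    simp only [ip, sub_re, sub_im, add_re, add_im, smul_re, smul_im, smul_eq_mul]
    ring
  set N := ‖q - (w + t • d)‖
  have h1 : 2 * A * N ≤ N ^ 2 + A ^ 2 := by nlinarith [sq_nonneg (N - A)]
  rw [e] at h1
  have h2 : A - t * (ip (q - w) d / A) + t ^ 2 * (‖d‖ ^ 2 / (2 * A))
      = (A ^ 2 - 2 * t * ip (q - w) d + t ^ 2 * ‖d‖ ^ 2 + A ^ 2) / (2 * A) := by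
    field_simp
    ring
  rw [h2, le_div_iff₀ (by positivity)]
  linarith

theorem eventually_small {S M : ℝ} (hS : 0 < S) : ∀ᶠ t : ℝ in 𝓝[>] 0, -(t * S) + t ^ 2 * M < 0 := by
  have h1 : Tendsto (fun t : ℝ => -S + t * M) (𝓝 0) (𝓝 (-S + 0 * M)) := by
    apply Continuous.tendsto
    fun_prop
  rw [zero_mul, add_zero] at h1
  have h2 : ∀ᶠ t : ℝ in 𝓝[>] 0, -S + t * M < 0 :=
    (h1.eventually_lt_const (by linarith)).filter_mono nhdsWithin_le_nhds
  filter_upwards [h2, self_mem_nhdsWithin] with t ht ht0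
  have ht0' : 0 < t := ht0
  have : -(t * S) + t ^ 2 * M = t * (-S + t * M) := by ring
  rw [this]
  exact mul_neg_of_pos_of_neg ht0' ht

/-- small moves along a direction which points into the polygon -/
theorem eventually_mem {P : Finset HP} {w d : ℂ} (hw : w ∈ Cl P)
    (hd : ∀ r ∈ P, ip r.1 w = r.2 → ip r.1 d ≤ 0) : ∀ᶠ t : ℝ in 𝓝[>] 0, w + t • d ∈ Cl P := by
  have h1 : ∀ r ∈ P, ∀ᶠ t : ℝ in 𝓝[>] 0, ip r.1 (w + t • d) ≤ r.2 := by
    intro r hr
    by_cases h : ip r.1 w = r.2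
    · filter_upwards [self_mem_nhdsWithin] with t ht
      have ht0 : 0 < t := ht
      rw [ip_add, ip_smul, h]
      have := hd r hr h
      nlinarith
    · have hlt : ip r.1 w < r.2 := lt_of_le_of_ne (hw r hr) h
      have h2 : Tendsto (fun t : ℝ => ip r.1 (w + t • d)) (𝓝 0) (𝓝 (ip r.1 (w + (0 : ℝ) • d))) := by
        apply Continuous.tendsto
        exact (continuous_ip r.1).comp (by fun_prop)
      rw [zero_smul, add_zero] at h2
      exact ((h2.eventually_lt_const hlt).filter_mono nhdsWithin_le_nhds).mono fun t ht => ht.le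
  have h2 : ∀ᶠ t : ℝ in 𝓝[>] 0, ∀ r ∈ P, ip r.1 (w + t • d) ≤ r.2 :=
    (Finset.eventually_all P).2 h1
  exact h2

/-- direction of the side `k` at the vertex of `k`, `l` -/
noncomputable def dirk (k l : HP) : ℂ := (-(dt k.1 l.1)) • (I * k.1)

theorem ip_dirk_self (k l : HP) : ip k.1 (dirk k l) = 0 := by
  simp only [dirk, ip, smul_re, smul_im, smul_eq_mul, mul_re, mul_im, I_re, I_im]
  ring

theorem ip_dirk_other (k l : HP) : ip l.1 (dirk k l) = -(dt k.1 l.1) ^ 2 := by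
  simp only [dirk, ip, dt, smul_re, smul_im, smul_eq_mul, mul_re, mul_im, I_re, I_im]
  ring

theorem dt_swap (z w : ℂ) : dt z w = -dt w z := by simp only [dt]; ring

theorem dirk_mem {P : Finset HP} (hP : Pg P) (hG : G1 P) {k l : HP} {w : ℂ} (hw : VxOf P k l w) :
    ∀ r ∈ P, ip r.1 w = r.2 → ip r.1 (dirk k l) ≤ 0 := by
  intro r hr h
  rcases (ver P hP hG).1 k l w hw r hr h with rfl | rfl
  · rw [ip_dirk_self]
  · rw [ip_dirk_other]
    nlinarith [sq_nonneg (dt k.1 r.1)]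

/-- decomposition in the cone of the two sides -/
theorem cone_decomp {P : Finset HP} (hP : Pg P) (hG : G1 P) {k l : HP} {w : ℂ}
    (hw : VxOf P k l w) {y : ℂ} (h1 : ip k.1 y ≤ 0) (h2 : ip l.1 y ≤ 0) :
    ∃ a b : ℝ, 0 ≤ a ∧ 0 ≤ b ∧ y = a • dirk k l + b • dirk l k := by
  have hD := dt_ne_zero hP hG hw.mem₁ hw.mem₂ hw.ne
  have hD2 : 0 < dt k.1 l.1 ^ 2 := by positivity
  refine ⟨-ip l.1 y / dt k.1 l.1 ^ 2, -ip k.1 y / dt k.1 l.1 ^ 2,
    div_nonneg (by linarith) hD2.le, div_nonneg (by linarith) hD2.le, ?_⟩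
  apply eq_of_ip hD
  · rw [ip_add, ip_smul, ip_smul, ip_dirk_self, ip_dirk_other, dt_swap l.1 k.1]
    field_simp
    ring
  · rw [ip_add, ip_smul, ip_smul, ip_dirk_self, ip_dirk_other]
    field_simp
    ring

theorem sld : SldStatement := by
  intro P hP hG k l w hw v hv x hx hcol
  have hvw : v ≠ w := by
    rintro rfl
    apply hcol
    simp [collinear_pair]
  have hxw : x ≠ w := by
    rintro rfl
    apply hcol
    simp [collinear_pair]
  have hA : 0 < ‖v - w‖ := norm_pos_iff.2 (sub_ne_zero.2 hvw)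
  have hB : 0 < ‖x - w‖ := norm_pos_iff.2 (sub_ne_zero.2 hxw)
  set e : ℂ := (‖v - w‖)⁻¹ • (v - w) + (‖x - w‖)⁻¹ • (x - w) with he
  have hneg : ∀ r ∈ P, ip r.1 w = r.2 → ip r.1 e ≤ 0 := by
    intro r hr h
    rw [he, ip_add, ip_smul, ip_smul, ip_sub, ip_sub, h]
    have h1 := hv r hr
    have h2 := hx r hr
    have p1 : (‖v - w‖)⁻¹ * (ip r.1 v - r.2) ≤ 0 :=
      mul_nonpos_of_nonneg_of_nonpos (by positivity) (by linarith)
    have p2 : (‖x - w‖)⁻¹ * (ip r.1 x - r.2) ≤ 0 :=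
      mul_nonpos_of_nonneg_of_nonpos (by positivity) (by linarith)
    linarith
  have he0 : e ≠ 0 := by
    intro h0
    apply hcol
    have h1 : x - w = (-(‖x - w‖ * (‖v - w‖)⁻¹)) • (v - w) := by
      have h2 : (‖x - w‖)⁻¹ • (x - w) = -((‖v - w‖)⁻¹ • (v - w)) := by
        rw [← sub_eq_zero, sub_neg_eq_add, add_comm]
        exact h0
      have h3 := congrArg (fun z => ‖x - w‖ • z) h2
      simp only [smul_smul, smul_neg] at h3
      rw [mul_inv_cancel₀ hB.ne', one_smul] at h3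
      rw [neg_smul]
      exact h3
    rw [collinear_iff_of_mem (p₀ := w) (by simp)]
    refine ⟨v - w, ?_⟩
    intro p hp
    simp only [Set.mem_insert_iff, Set.mem_singleton_iff] at hp
    rcases hp with rfl | rfl | rfl
    · exact ⟨1, by simp⟩
    · exact ⟨0, by simp⟩
    · refine ⟨-(‖p - w‖ * (‖v - w‖)⁻¹), ?_⟩
      rw [← h1]
      simp
  obtain ⟨a, b, ha, hb, hab⟩ := cone_decomp hP hG hw (hneg k hw.mem₁ hw.on₁) (hneg l hw.mem₂ hw.on₂)
  have hpos : 0 < ip e e := by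
    rw [← norm_sq_eq]
    have := norm_pos_iff.2 he0
    positivity
  have hsum : ip e e = a * ip e (dirk k l) + b * ip e (dirk l k) := by
    conv_lhs => rw [hab]
    rw [ip_comm, ip_add, ip_smul, ip_smul, ← hab]
  -- the common argument for one direction
  have main : ∀ (s s' : HP), VxOf P s s' w → 0 < ip e (dirk s s') →
      ∃ w' ∈ Cl P, ip s.1 w' = s.2 ∧ ‖v - w'‖ + ‖w' - x‖ < ‖v - w‖ + ‖w - x‖ := by
    intro s s' hss hd
    set d := dirk s s' with hd'
    have h1 := eventually_mem hw.cl (dirk_mem hP hG hss)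
    have h2 := eventually_small (M := ‖d‖ ^ 2 / (2 * ‖v - w‖) + ‖d‖ ^ 2 / (2 * ‖x - w‖)) hd
    obtain ⟨t, ht1, ht2⟩ := (h1.and h2).exists
    refine ⟨w + t • d, ht1, ?_, ?_⟩
    · rw [ip_add, ip_smul, hd', ip_dirk_self, mul_zero, add_zero]
      exact hss.on₁
    · have m1 := norm_move_le hvw d t
      have m2 := norm_move_le hxw d t
      rw [norm_sub_rev (w + t • d) x, norm_sub_rev w x]
      have e1 : ip e d = ip (v - w) d / ‖v - w‖ + ip (x - w) d / ‖x - w‖ := by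
        rw [he, ip_add_left, ip_smul_left, ip_smul_left]
        ring
      rw [e1] at ht2
      have e2 : -(t * (ip (v - w) d / ‖v - w‖ + ip (x - w) d / ‖x - w‖))
          + t ^ 2 * (‖d‖ ^ 2 / (2 * ‖v - w‖) + ‖d‖ ^ 2 / (2 * ‖x - w‖))
          = (- (t * (ip (v - w) d / ‖v - w‖)) + t ^ 2 * (‖d‖ ^ 2 / (2 * ‖v - w‖)))
            + (- (t * (ip (x - w) d / ‖x - w‖)) + t ^ 2 * (‖d‖ ^ 2 / (2 * ‖x - w‖))) := by ring
      rw [e2] at ht2
      linarith
  have hw' : VxOf P l k w := ⟨hw.cl, hw.mem₂, hw.mem₁, hw.ne.symm, hw.on₂, hw.on₁⟩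
  by_cases hk : 0 < ip e (dirk k l)
  · obtain ⟨w', h1, h2, h3⟩ := main k l hw hk
    exact ⟨k, Or.inl rfl, w', h1, h2, h3⟩
  · have hl : 0 < ip e (dirk l k) := by
      by_contra hcon
      push Not at hk hcon
      nlinarith [mul_nonneg ha (neg_nonneg.2 hk), mul_nonneg hb (neg_nonneg.2 hcon)]
    obtain ⟨w', h1, h2, h3⟩ := main l k hw' hl
    exact ⟨l, Or.inr rfl, w', h1, h2, h3⟩

end Pool.Agent.AEU.H55
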