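import Pool.Agent.Helper25_AEU.Stmt

/-!
VER: vertices of a convex polygon.
-/

namespace Pool.Agent.AEU.H55

open MeasureTheory Complex Filter Topology Pool.Agent.H62T
open Pool.Agent.H16F (Sublin)

theorem ip_add (z x y : ℂ) : ip z (x + y) = ip z x + ip z y := by
  simp only [ip, add_re, add_im]; ring

theorem ip_sub (z x y : ℂ) : ip z (x - y) = ip z x - ip z y := by
  simp only [ip, sub_re, sub_im]; ring

theorem ip_smul (z : ℂ) (c : ℝ) (x : ℂ) : ip z (c • x) = c * ip z x := by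
  simp only [ip, smul_re, smul_im, smul_eq_mul]; ring

theorem ip_mul_ofReal (z : ℂ) (c : ℝ) (x : ℂ) : ip z ((c : ℂ) * x) = c * ip z x := by
  simp only [ip, re_ofReal_mul, im_ofReal_mul]; ring

theorem sq_ip_add_sq_dt (z w : ℂ) : ip z w ^ 2 + dt z w ^ 2 = ‖z‖ ^ 2 * ‖w‖ ^ 2 := by
  rw [← normSq_eq_norm_sq, ← normSq_eq_norm_sq, normSq_apply, normSq_apply, ip, dt]
  ring

theorem dt_ne_zero {P : Finset HP} (hP : Pg P) (hG : G1 P) {s t : HP} (hs : s ∈ P) (ht : t ∈ P)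
    (hne : s ≠ t) : dt s.1 t.1 ≠ 0 := by
  intro h
  have h1 := sq_ip_add_sq_dt s.1 t.1
  rw [h, hP.unit s hs, hP.unit t ht] at h1
  have h2 := hG.lt1 s hs t ht hne
  have h3 : |ip s.1 t.1| ^ 2 = 1 := by rw [sq_abs]; linarith
  have h4 := abs_nonneg (ip s.1 t.1)
  nlinarith

/-- two points with the same products with two independent vectors are equal -/
theorem eq_of_ip {s t x y : ℂ} (h : dt s t ≠ 0) (h1 : ip s x = ip s y) (h2 : ip t x = ip t y) :
    x = y := by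
  simp only [ip] at h1 h2
  have e1 : dt s t * (x.re - y.re) = 0 := by
    simp only [dt]
    linear_combination t.im * h1 - s.im * h2
  have e2 : dt s t * (x.im - y.im) = 0 := by
    simp only [dt]
    linear_combination s.re * h2 - t.re * h1
  have e3 := (mul_eq_zero.1 e1).resolve_left h
  have e4 := (mul_eq_zero.1 e2).resolve_left h
  apply Complex.ext <;> linarith

theorem ip_vx {s t : HP} (h : dt s.1 t.1 ≠ 0) : ip s.1 (vx s t) = s.2 ∧ ip t.1 (vx s t) = t.2 := by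
  have e : vx s t = (((dt s.1 t.1)⁻¹ : ℝ) : ℂ) * (I * ((t.2 : ℂ) * s.1 - (s.2 : ℂ) * t.1)) := by
    rw [vx, ofReal_inv]
    ring
  constructor
  · rw [e, ip_mul_ofReal]
    have : ip s.1 (I * ((t.2 : ℂ) * s.1 - (s.2 : ℂ) * t.1)) = dt s.1 t.1 * s.2 := by
      simp only [ip, dt, mul_re, mul_im, I_re, I_im, sub_re, sub_im, ofReal_re, ofReal_im]
      ring
    rw [this, inv_mul_cancel_left₀ h]
  · rw [e, ip_mul_ofReal]
    have : ip t.1 (I * ((t.2 : ℂ) * s.1 - (s.2 : ℂ) * t.1)) = dt s.1 t.1 * t.2 := by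
      simp only [ip, dt, mul_re, mul_im, I_re, I_im, sub_re, sub_im, ofReal_re, ofReal_im]
      ring
    rw [this, inv_mul_cancel_left₀ h]

theorem dep (u v w y : ℂ) : dt v w * ip u y + dt w u * ip v y + dt u v * ip w y = 0 := by
  simp only [dt, ip]; ring

theorem two_sides {P : Finset HP} (hP : Pg P) (hG : G1 P) {s t r : HP} {v : ℂ} (hs : s ∈ P)
    (ht : t ∈ P) (hr : r ∈ P) (hst : s ≠ t) (hsr : s ≠ r) (htr : t ≠ r) (h1 : ip s.1 v = s.2)
    (h2 : ip t.1 v = t.2) (h3 : ip r.1 v = r.2) : False := by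
  have key : ∀ a b c : HP, a ∈ P → b ∈ P → c ∈ P → a ≠ b → a ≠ c → b ≠ c → ip a.1 v = a.2 →
      ip b.1 v = b.2 → ip c.1 v = c.2 → dt c.1 a.1 * dt a.1 b.1 < 0 := by
    intro a b c ha hb hc hab hac hbc e1 e2 e3
    obtain ⟨x, hx, hx'⟩ := hP.side a ha
    have d := dep a.1 b.1 c.1 (x - v)
    have f1 : ip a.1 (x - v) = 0 := by rw [ip_sub]; linarith
    have f2 : ip b.1 (x - v) < 0 := by rw [ip_sub]; linarith [hx' b hb hab.symm]
    have f3 : ip c.1 (x - v) < 0 := by rw [ip_sub]; linarith [hx' c hc hac.symm]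
    rw [f1, mul_zero, zero_add] at d
    have n1 := dt_ne_zero hP hG hc ha hac.symm
    have n2 := dt_ne_zero hP hG ha hb hab
    set B := dt c.1 a.1
    set C := dt a.1 b.1
    set p := ip b.1 (x - v)
    set q := ip c.1 (x - v)
    have e : B * C * q = -(B ^ 2 * p) := by linear_combination B * d
    have hpos : 0 < -(B ^ 2 * p) := by
      have : 0 < B ^ 2 := by positivity
      nlinarith
    rw [← e] at hpos
    by_contra hcon
    push Not at hcon
    nlinarith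
  have a1 := key s t r hs ht hr hst hsr htr h1 h2 h3
  have a2 := key t r s ht hr hs htr hst.symm hsr.symm h2 h3 h1
  have a3 := key r s t hr hs ht hsr.symm htr.symm hst h3 h1 h2
  have b1 : 0 < (dt r.1 s.1 * dt s.1 t.1) * (dt s.1 t.1 * dt t.1 r.1) := mul_pos_of_neg_of_neg a1 a2
  have b2 : (dt r.1 s.1 * dt s.1 t.1) * (dt s.1 t.1 * dt t.1 r.1) * (dt t.1 r.1 * dt r.1 s.1) < 0 :=
    mul_neg_of_pos_of_neg b1 a3
  have b3 : (dt r.1 s.1 * dt s.1 t.1) * (dt s.1 t.1 * dt t.1 r.1) * (dt t.1 r.1 * dt r.1 s.1)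
      = (dt r.1 s.1 * dt s.1 t.1 * dt t.1 r.1) ^ 2 := by ring
  rw [b3] at b2
  exact absurd b2 (not_lt.2 (sq_nonneg _))

theorem continuous_ip (z : ℂ) : Continuous fun x : ℂ => ip z x := by
  unfold ip
  fun_prop

theorem isCompact_Cl {P : Finset HP} (hP : Pg P) : IsCompact (Cl P) := by
  refine Metric.isCompact_of_isClosed_isBounded ?_ hP.bdd
  have e : Cl P = ⋂ s ∈ P, {x : ℂ | ip s.1 x ≤ s.2} := by
    ext x
    simp [Cl]
  rw [e]
  exact isClosed_biInter fun s _ => isClosed_le (continuous_ip s.1) continuous_const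

theorem ver : VerStatement := by
  intro P hP hG
  have h1 : ∀ s t v, VxOf P s t v → ∀ r ∈ P, ip r.1 v = r.2 → r = s ∨ r = t := by
    intro s t v hv r hr hrv
    by_contra hcon
    push Not at hcon
    exact two_sides hP hG hv.mem₁ hv.mem₂ hr hv.ne hcon.1.symm hcon.2.symm hv.on₁ hv.on₂ hrv
  have h5 : ∀ s t v w, VxOf P s t v → VxOf P s t w → v = w := by
    intro s t v w hv hw
    exact eq_of_ip (dt_ne_zero hP hG hv.mem₁ hv.mem₂ hv.ne) (hv.on₁.trans hw.on₁.symm)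
      (hv.on₂.trans hw.on₂.symm)
  refine ⟨h1, ?_, ?_, h5, ?_, ?_, ?_, ?_, isCompact_Cl hP⟩
  · intro s t v hv r hr hrs hrt
    refine lt_of_le_of_ne (hv.cl r hr) fun h => ?_
    rcases h1 s t v hv r hr h with h | h
    · exact hrs h
    · exact hrt h
  · rintro v ⟨s, t, hv⟩ a ha b hb ⟨α, β, hα, hβ, hαβ, rfl⟩
    have key : ∀ r ∈ P, ip r.1 (α • a + β • b) = r.2 → ip r.1 a = r.2 ∧ ip r.1 b = r.2 := by
      intro r hr h
      rw [ip_add, ip_smul, ip_smul] at h
      have ha' := ha r hr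
      have hb' := hb r hr
      have e : α * (r.2 - ip r.1 a) + β * (r.2 - ip r.1 b) = 0 := by
        linear_combination r.2 * hαβ - h
      have p1 : 0 ≤ α * (r.2 - ip r.1 a) := mul_nonneg hα.le (by linarith)
      have p2 : 0 ≤ β * (r.2 - ip r.1 b) := mul_nonneg hβ.le (by linarith)
      have q1 : α * (r.2 - ip r.1 a) = 0 := by linarith
      have q2 : β * (r.2 - ip r.1 b) = 0 := by linarith
      have q1' := (mul_eq_zero.1 q1).resolve_left hα.ne'
      have q2' := (mul_eq_zero.1 q2).resolve_left hβ.ne'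
      exact ⟨by linarith, by linarith⟩
    obtain ⟨a1, b1⟩ := key s hv.mem₁ hv.on₁
    obtain ⟨a2, b2⟩ := key t hv.mem₂ hv.on₂
    have hd := dt_ne_zero hP hG hv.mem₁ hv.mem₂ hv.ne
    exact ⟨eq_of_ip hd (a1.trans hv.on₁.symm) (a2.trans hv.on₂.symm),
      eq_of_ip hd (b1.trans hv.on₁.symm) (b2.trans hv.on₂.symm)⟩
  · intro s t v hv
    have hd := dt_ne_zero hP hG hv.mem₁ hv.mem₂ hv.ne
    obtain ⟨e1, e2⟩ := ip_vx hd
    exact ⟨eq_of_ip hd (hv.on₁.trans e1.symm) (hv.on₂.trans e2.symm),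
      ⟨hv.cl, hv.mem₂, hv.mem₁, hv.ne.symm, hv.on₂, hv.on₁⟩⟩
  · intro x hx s hs hsx hnv t ht hts
    refine lt_of_le_of_ne (hx t ht) fun h => hnv ⟨s, t, hx, hs, ht, hts.symm, hsx, h⟩
  · intro h hf x hx s hs
    exact (hx s.1).trans (hf s hs)
  · intro s t v h hv hf hin
    constructor
    · rw [touch, Finset.mem_filter]
      exact ⟨hv.mem₁, le_antisymm (hf s hv.mem₁) (by rw [← hv.on₁]; exact hin s.1)⟩
    · rw [touch, Finset.mem_filter]
      exact ⟨hv.mem₂, le_antisymm (hf t hv.mem₂) (by rw [← hv.on₂]; exact hin t.1)⟩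

end Pool.Agent.AEU.H55
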